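import Pool.Agent.MP_c07293_an.H78.Count

open Pool.Agent.MP_c07293_an.H82 Pool.Agent.MP_c07293_an.H78

namespace Pool.Agent.Results.MP_c07293_an.FunctionFieldAll

/-- Over every finite field and in every rank `n ≥ 2`, one compact subset of
`PGL(n, F((X))) / PGL(n, F[1/X])` contains a positive power of `q ^ T` distinct compact orbits of
the full diagonal group whose discriminant has degree at most `T`. -/
theorem result (F : Type) [Field F] [Finite F] (n : ℕ) (hn : 2 ≤ n) :
    ∃ Ω : Set (GL (Fin n) (LaurentSeries F) ⧸ Gam F n), IsCompact Ω ∧ ∃ k : ℕ, 0 < k ∧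
      ∀ᶠ T : ℕ in Filter.atTop, ((Nat.card F ^ (T / k) : ℕ) : ℕ∞) ≤
        {O | IsCompact O ∧ O ⊆ Ω ∧ DiscLe O T}.encard :=
  count n hn

end Pool.Agent.Results.MP_c07293_an.FunctionFieldAll
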